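import Mathlib

/-!
# Every finite poset embeds in a `k`-irreducible poset of larger `k`-dimension
-/

set_option autoImplicit false

open Finset

namespace Pool.Agent.Results.MP_6e33d6_co.Irreducible

universe u

/-- The `k`-dimension of a poset `P`: the least `n` such that `P` embeds in the product of `n`
chains with `k` elements. -/
noncomputable def kdim (k : ℕ) (P : Type u) [PartialOrder P] : ℕ :=
  sInf {n | Nonempty (P ↪o (Fin n → Fin k))}

/-- `Q` is `k`-irreducible: removing any element lowers the `k`-dimension. -/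
def KIrreducible (k : ℕ) (Q : Type u) [PartialOrder Q] : Prop :=
  ∀ x : Q, kdim k {y : Q // y ≠ x} < kdim k Q

section construction

variable {P : Type u} [PartialOrder P] {l : ℕ}

/-- the subset of `P × Fin 3` coding an element -/
def code (e : P ≃ Fin l) : P ⊕ (P × Fin 3) → Set (P × Fin 3)
  | Sum.inl p => {x | x.1 < p ∨ (x.1 = p ∧ x.2 = 2)}
  | Sum.inr js => {x | e x.1 < e js.1 ∨
      (x.1 = js.1 ∧ js.2 ≠ 0 ∧ (x.2 = 2 ∨ x.2.val + 1 = js.2.val))}

lemma mem_inl (e : P ≃ Fin l) (p r : P) (t : Fin 3) :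
    (r, t) ∈ code e (Sum.inl p) ↔ r < p ∨ (r = p ∧ t = 2) := Iff.rfl

lemma mem_inr (e : P ≃ Fin l) (j r : P) (s t : Fin 3) :
    (r, t) ∈ code e (Sum.inr (j, s)) ↔ e r < e j ∨
      (r = j ∧ s ≠ 0 ∧ (t = 2 ∨ t.val + 1 = s.val)) := Iff.rfl

/-- the third coordinate of the block `j` is redundant away from `inl j` -/
lemma third (e : P ≃ Fin l) (j : P) (x : P ⊕ (P × Fin 3)) (hx : x ≠ Sum.inl j) :
    (j, 2) ∈ code e x ↔ (j, 0) ∈ code e x ∨ (j, 1) ∈ code e x := by
  rcases x with p | ⟨i, s⟩
  · have hp : j ≠ p := fun h => hx (by rw [h])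
    simp only [mem_inl, hp, false_and, or_false, or_self]
  · simp only [mem_inr]
    fin_cases s <;> simp <;> tauto

lemma code_injective (e : P ≃ Fin l) : Function.Injective (code e) := by
  intro x y h
  have hl : ∀ p, ∀ y : P ⊕ (P × Fin 3), code e (Sum.inl p) = code e y → y = Sum.inl p := by
    intro p y h
    by_contra hy
    have h1 : (p, 2) ∈ code e y := by
      rw [← h, mem_inl]; exact Or.inr ⟨rfl, rfl⟩
    rw [third e p y hy, ← h, mem_inl, mem_inl] at h1
    rcases h1 with (h1 | h1) | (h1 | h1)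
    · exact lt_irrefl _ h1
    · exact absurd h1.2 (by decide)
    · exact lt_irrefl _ h1
    · exact absurd h1.2 (by decide)
  rcases x with p | ⟨i, s⟩
  · exact (hl p y h).symm
  · rcases y with q | ⟨j, t⟩
    · exact hl q _ h.symm
    · have key : ∀ i j : P, ∀ s t : Fin 3, e i < e j →
          code e (Sum.inr (i, s)) ≠ code e (Sum.inr (j, t)) := by
        intro i j s t hij h
        have h0 : (i, 0) ∈ code e (Sum.inr (i, s)) := by
          rw [h, mem_inr]; exact Or.inl hij
        have h1 : (i, 1) ∈ code e (Sum.inr (i, s)) := by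
          rw [h, mem_inr]; exact Or.inl hij
        rw [mem_inr] at h0 h1
        fin_cases s <;> simp at h0 h1
      rcases lt_trichotomy (e i) (e j) with hij | hij | hij
      · exact absurd h (key i j s t hij)
      · have hij' : i = j := e.injective hij
        subst hij'
        have h0 : (i, (0 : Fin 3)) ∈ code e (Sum.inr (i, s)) ↔
            (i, (0 : Fin 3)) ∈ code e (Sum.inr (i, t)) := by rw [h]
        have h1 : (i, (1 : Fin 3)) ∈ code e (Sum.inr (i, s)) ↔
            (i, (1 : Fin 3)) ∈ code e (Sum.inr (i, t)) := by rw [h]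
        rw [mem_inr, mem_inr] at h0 h1
        congr 2
        fin_cases s <;> fin_cases t <;> simp_all
      · exact absurd h.symm (key j i t s hij)

/-- The poset of the elements of `P` and of the blocks. -/
def Blk (_e : P ≃ Fin l) : Type u := P ⊕ (P × Fin 3)

instance (e : P ≃ Fin l) : PartialOrder (Blk e) := PartialOrder.lift (code e) (code_injective e)

instance (e : P ≃ Fin l) [Finite P] : Finite (Blk e) :=
  inferInstanceAs (Finite (P ⊕ (P × Fin 3)))

/-- the element `p` of `P` -/
def pt (e : P ≃ Fin l) (p : P) : Blk e := Sum.inl p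

/-- the element number `s` of the block of `p` -/
def bl (e : P ≃ Fin l) (p : P) (s : Fin 3) : Blk e := Sum.inr (p, s)

lemma le_iff (e : P ≃ Fin l) (x y : Blk e) : x ≤ y ↔ code e x ⊆ code e y := Iff.rfl

lemma pt_le_pt (e : P ≃ Fin l) (p q : P) :
    pt e p ≤ pt e q ↔ p ≤ q := by
  rw [le_iff]
  constructor
  · intro h
    have h1 : (p, 2) ∈ code e (pt e q) := h (by show (p, 2) ∈ code e (Sum.inl p); rw [mem_inl]; exact Or.inr ⟨rfl, rfl⟩)
    have h2 : (p, 2) ∈ code e (Sum.inl q) := h1
    rw [mem_inl] at h2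
    rcases h2 with h2 | h2
    · exact h2.le
    · exact h2.1.le
  · rintro h ⟨r, t⟩ hx
    have h1 : (r, t) ∈ code e (Sum.inl p) := hx
    show (r, t) ∈ code e (Sum.inl q)
    rw [mem_inl] at h1 ⊢
    rcases h1 with h1 | ⟨h1, h2⟩
    · exact Or.inl (h1.trans_le h)
    · subst h1
      rcases h.lt_or_eq with h3 | h3
      · exact Or.inl h3
      · exact Or.inr ⟨h3, h2⟩

lemma bl_zero_le (e : P ≃ Fin l) (p : P) (s : Fin 3) : bl e p 0 ≤ bl e p s := by
  rw [le_iff]
  rintro ⟨r, t⟩ hx
  have h1 : (r, t) ∈ code e (Sum.inr (p, 0)) := hx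
  show (r, t) ∈ code e (Sum.inr (p, s))
  rw [mem_inr] at h1 ⊢
  rcases h1 with h1 | h1
  · exact Or.inl h1
  · exact absurd rfl h1.2.1

lemma bl_not_le (e : P ≃ Fin l) (p : P) : ¬ bl e p 1 ≤ bl e p 2 := by
  rw [le_iff]
  intro h
  have h1 : (p, 0) ∈ code e (Sum.inr (p, 1)) := by
    rw [mem_inr]; right; simp
  have h2 : (p, 0) ∈ code e (Sum.inr (p, 2)) := h h1
  rw [mem_inr] at h2
  simp at h2

lemma bl_not_le' (e : P ≃ Fin l) (p : P) : ¬ bl e p 2 ≤ bl e p 1 := by
  rw [le_iff]
  intro h
  have h1 : (p, 1) ∈ code e (Sum.inr (p, 2)) := by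
    rw [mem_inr]; right; simp
  have h2 : (p, 1) ∈ code e (Sum.inr (p, 1)) := h h1
  rw [mem_inr] at h2
  simp at h2

lemma pt_le_bl (e : P ≃ Fin l) (he : ∀ p q, p < q → e p < e q) (p : P) (s : Fin 3) (hs : s ≠ 0) :
    pt e p ≤ bl e p s := by
  rw [le_iff]
  rintro ⟨r, t⟩ hx
  have h1 : (r, t) ∈ code e (Sum.inl p) := hx
  show (r, t) ∈ code e (Sum.inr (p, s))
  rw [mem_inl] at h1
  rw [mem_inr]
  rcases h1 with h1 | h1
  · exact Or.inl (he _ _ h1)
  · exact Or.inr ⟨h1.1, hs, Or.inl h1.2⟩

lemma pt_not_le (e : P ≃ Fin l) (p : P) : ¬ pt e p ≤ bl e p 0 := by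
  rw [le_iff]
  intro h
  have h1 : (p, 2) ∈ code e (Sum.inl p) := by rw [mem_inl]; exact Or.inr ⟨rfl, rfl⟩
  have h2 : (p, 2) ∈ code e (Sum.inr (p, 0)) := h h1
  rw [mem_inr] at h2
  simp at h2

lemma bl_le_bl (e : P ≃ Fin l) (p q : P) (h : e p < e q) (s : Fin 3) :
    bl e p s ≤ bl e q 0 := by
  rw [le_iff]
  rintro ⟨r, t⟩ hx
  have h1 : (r, t) ∈ code e (Sum.inr (p, s)) := hx
  show (r, t) ∈ code e (Sum.inr (q, 0))
  rw [mem_inr] at h1 ⊢
  left
  rcases h1 with h1 | h1
  · exact h1.trans h
  · rw [h1.1]; exact h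

end construction

section weight

variable {N k : ℕ}

/-- the sum of the coordinates -/
def wt (v : Fin N → Fin k) : ℕ := ∑ i, (v i : ℕ)

lemma wt_lt {v w : Fin N → Fin k} (h : v < w) : wt v < wt w := by
  obtain ⟨h1, i, hi⟩ := Pi.lt_def.mp h
  exact Finset.sum_lt_sum (fun j _ => Fin.le_def.mp (h1 j)) ⟨i, Finset.mem_univ _, Fin.lt_def.mp hi⟩

lemma wt_le {v w : Fin N → Fin k} (h : v ≤ w) : wt v ≤ wt w :=
  Finset.sum_le_sum (fun j _ => Fin.le_def.mp (h j))

lemma wt_sup_inf (v w : Fin N → Fin k) : wt (v ⊔ w) + wt (v ⊓ w) = wt v + wt w := by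
  unfold wt
  rw [← Finset.sum_add_distrib, ← Finset.sum_add_distrib]
  apply Finset.sum_congr rfl
  intro i _
  simp only [Pi.sup_apply, Pi.inf_apply]
  rcases le_total (v i) (w i) with h | h
  · rw [sup_eq_right.mpr h, inf_eq_left.mpr h, add_comm]
  · rw [sup_eq_left.mpr h, inf_eq_right.mpr h]

lemma block_wt {v0 q v1 v2 : Fin N → Fin k} (h1 : v0 ≤ v1) (h2 : v0 ≤ v2) (hq1 : q ≤ v1)
    (hq2 : q ≤ v2) (hq : ¬ q ≤ v0) (h12 : ¬ v1 ≤ v2) (h21 : ¬ v2 ≤ v1) :
    wt v0 + 3 ≤ wt (v1 ⊔ v2) := by
  have e1 : v0 < v1 ⊓ v2 := by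
    refine lt_of_le_of_ne (le_inf h1 h2) ?_
    intro h
    exact hq (by rw [h]; exact le_inf hq1 hq2)
  have e2 : v1 ⊓ v2 < v1 := inf_lt_left.mpr h12
  have e3 : v1 ⊓ v2 < v2 := inf_lt_right.mpr h21
  have := wt_lt e1
  have := wt_lt e2
  have := wt_lt e3
  have := wt_sup_inf v1 v2
  omega

lemma wt_bound {a : ℕ} (v : Fin N → Fin (a + 1)) : wt v ≤ N * a := by
  unfold wt
  calc ∑ i, (v i : ℕ) ≤ ∑ _i : Fin N, a := Finset.sum_le_sum fun i _ => by omega
    _ = N * a := by simp

end weight

/-- The poset: a chain with `M` elements below the poset of blocks. -/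
abbrev Big {P : Type u} [PartialOrder P] {l : ℕ} (M : ℕ) (e : P ≃ Fin l) : Type u :=
  Lex (Fin M ⊕ Blk e)

/-- lower bound for the dimension of `Big` -/
lemma not_embeds {P : Type u} [PartialOrder P] {l : ℕ} (e : P ≃ Fin l)
    (he : ∀ p q, p < q → e p < e q) (a : ℕ) (hl : 0 < l) :
    ¬ Nonempty (Big (a * (3 * l - 1)) e ↪o (Fin (3 * l - 1) → Fin (a + 2))) := by
  rintro ⟨f⟩
  set N := 3 * l - 1 with hN
  set M := a * N with hM
  -- the chain
  have hchain : ∀ n : ℕ, ∀ hn : n < M, n ≤ wt (f (toLex (Sum.inl (⟨n, hn⟩ : Fin M)))) := by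
    intro n
    induction n with
    | zero => intro _; exact Nat.zero_le _
    | succ n ih =>
      intro hn
      have h1 := ih (by omega)
      have h2 : (toLex (Sum.inl (⟨n, by omega⟩ : Fin M)) : Big M e) <
          toLex (Sum.inl (⟨n + 1, hn⟩ : Fin M)) := by
        rw [Sum.Lex.inl_lt_inl_iff]
        simp [Fin.lt_def]
      have h3 := wt_lt (f.lt_iff_lt.mpr h2)
      omega
  have hbase : ∀ x : Blk e, M ≤ wt (f (toLex (Sum.inr x))) := by
    intro x
    rcases Nat.eq_zero_or_pos M with h0 | h0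
    · omega
    · have h1 := hchain (M - 1) (by omega)
      have h2 : (toLex (Sum.inl (⟨M - 1, by omega⟩ : Fin M)) : Big M e) < toLex (Sum.inr x) :=
        Sum.Lex.inl_lt_inr _ _
      have h3 := wt_lt (f.lt_iff_lt.mpr h2)
      omega
  have hle : ∀ x y : Blk e, f (toLex (Sum.inr x)) ≤ f (toLex (Sum.inr y)) ↔ x ≤ y := by
    intro x y
    rw [f.le_iff_le, Sum.Lex.inr_le_inr_iff]
  -- each block has weight at least three
  have hblock : ∀ p : P, wt (f (toLex (Sum.inr (bl e p 0)))) + 3 ≤
      wt (f (toLex (Sum.inr (bl e p 1))) ⊔ f (toLex (Sum.inr (bl e p 2)))) := by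
    intro p
    refine block_wt (q := f (toLex (Sum.inr (pt e p)))) ?_ ?_ ?_ ?_ ?_ ?_ ?_
    · rw [hle]; exact bl_zero_le e p 1
    · rw [hle]; exact bl_zero_le e p 2
    · rw [hle]; exact pt_le_bl e he p 1 (by decide)
    · rw [hle]; exact pt_le_bl e he p 2 (by decide)
    · rw [hle]; exact pt_not_le e p
    · rw [hle]; exact bl_not_le e p
    · rw [hle]; exact bl_not_le' e p
  have hind : ∀ n : ℕ, ∀ p : P, (e p).val = n → M + 3 * n ≤ wt (f (toLex (Sum.inr (bl e p 0)))) := by
    intro n
    induction n with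
    | zero => intro p _; simpa using hbase (bl e p 0)
    | succ n ih =>
      intro p hp
      have hn : n < l := by have := (e p).isLt; omega
      set q := e.symm ⟨n, hn⟩ with hq
      have heq : e q = ⟨n, hn⟩ := by rw [hq, Equiv.apply_symm_apply]
      have h1 := ih q (by rw [heq])
      have hlt : e q < e p := by rw [heq, Fin.lt_def]; simp only; omega
      have h2 : f (toLex (Sum.inr (bl e q 1))) ⊔ f (toLex (Sum.inr (bl e q 2))) ≤
          f (toLex (Sum.inr (bl e p 0))) := by
        apply sup_le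
        · rw [hle]; exact bl_le_bl e q p hlt 1
        · rw [hle]; exact bl_le_bl e q p hlt 2
      have h3 := wt_le h2
      have h4 := hblock q
      omega
  set p := e.symm ⟨l - 1, by omega⟩ with hp
  have h1 := hind (l - 1) p (by rw [hp, Equiv.apply_symm_apply])
  have h2 := hblock p
  have h3 := wt_bound (f (toLex (Sum.inr (bl e p 1))) ⊔ f (toLex (Sum.inr (bl e p 2))))
  have h4 : N * (a + 1) = M + N := by rw [hM]; ring
  omega

open Classical in
/-- the vector of an element of `Big` -/
noncomputable def vec {P : Type u} [PartialOrder P] {l : ℕ} (e : P ≃ Fin l) (a N M : ℕ)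
    (σ : Fin N → P × Fin 3) (x : Big M e) (i : Fin N) : ℕ :=
  match ofLex x with
  | Sum.inl t => min a (t.val - a * i.val)
  | Sum.inr y => a + (if σ i ∈ code e y then 1 else 0)

/-- After the removal of `pt q` the poset `Big` embeds. -/
lemma embeds {P : Type u} [PartialOrder P] {l : ℕ} (e : P ≃ Fin l) (a N M : ℕ) (hl : 0 < l)
    (hN : N = 3 * l - 1) (hM : M = a * N) (q : P)
    (S : Set (Big M e)) (hS : toLex (Sum.inr (pt e q)) ∉ S) :
    Nonempty (S ↪o (Fin N → Fin (a + 2))) := by
  classical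
  have : Fintype P := Fintype.ofEquiv _ e.symm
  have hcard : Fintype.card {c : P × Fin 3 // c ≠ (q, 2)} = N := by
    rw [Fintype.card_subtype_compl, Fintype.card_prod, Fintype.card_congr e, Fintype.card_fin,
      Fintype.card_fin, Fintype.card_subtype_eq]
    omega
  let τ : Fin N ≃ {c : P × Fin 3 // c ≠ (q, 2)} := (Fintype.equivFinOfCardEq hcard).symm
  let σ : Fin N → P × Fin 3 := fun i => (τ i).1
  have hbound : ∀ x : Big M e, ∀ i, vec e a N M σ x i < a + 2 := by
    intro x i
    unfold vec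
    rcases ofLex x with t | y
    · simp only; have := min_le_left a (t.val - a * i.val); omega
    · simp only; split_ifs <;> omega
  let g : Big M e → (Fin N → Fin (a + 2)) := fun x i => ⟨vec e a N M σ x i, hbound x i⟩
  have hg : ∀ x y : Fin M ⊕ Blk e, x ≠ Sum.inr (pt e q) → y ≠ Sum.inr (pt e q) →
      (g (toLex x) ≤ g (toLex y) ↔ (toLex x : Big M e) ≤ toLex y) := by
    intro x y hx hy
    have hgle : g (toLex x) ≤ g (toLex y) ↔
        ∀ i, vec e a N M σ (toLex x) i ≤ vec e a N M σ (toLex y) i := by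
      constructor
      · intro h i; exact Fin.le_def.mp (h i)
      · intro h i; exact Fin.le_def.mpr (h i)
    rw [hgle]
    rcases x with t | u
    · rcases y with t' | u'
      · have e1 : (toLex (Sum.inl t) : Big M e) ≤ toLex (Sum.inl t') ↔ t ≤ t' :=
          Sum.Lex.inl_le_inl_iff
        have e2 : (∀ i, vec e a N M σ (toLex (Sum.inl t)) i ≤
            vec e a N M σ (toLex (Sum.inl t')) i) ↔
            ∀ i : Fin N, min a (t.val - a * i.val) ≤ min a (t'.val - a * i.val) := Iff.rfl
        rw [e2]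
        refine Iff.trans ?_ e1.symm
        constructor
        · intro h
          by_contra hlt
          rw [not_le, Fin.lt_def] at hlt
          have ht := t.isLt
          have ha : 0 < a := by
            rcases Nat.eq_zero_or_pos a with h0 | h0
            · have : M = 0 := by rw [hM, h0, zero_mul]
              omega
            · exact h0
          have hdiv : t'.val / a < N := by
            rw [Nat.div_lt_iff_lt_mul ha]
            have : N * a = M := by rw [hM, mul_comm]
            omega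
          have h1 := h ⟨t'.val / a, hdiv⟩
          simp only at h1
          have h2 := Nat.div_add_mod t'.val a
          have h3 := Nat.mod_lt t'.val ha
          have h4 : t'.val - a * (t'.val / a) = t'.val % a := by omega
          have h5 : t.val - a * (t'.val / a) ≥ t'.val % a + 1 := by omega
          rw [h4] at h1
          have h6 : t'.val % a + 1 ≤ min a (t.val - a * (t'.val / a)) := le_min (by omega) h5
          have h7 := min_le_right a (t'.val % a)
          omega
        · intro h i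
          rw [Fin.le_def] at h
          exact min_le_min_left _ (by omega)
      · have e1 : (toLex (Sum.inl t) : Big M e) ≤ toLex (Sum.inr u') :=
          Sum.Lex.inl_le_inr _ _
        refine ⟨fun _ => e1, fun _ i => ?_⟩
        show min a (t.val - a * i.val) ≤ a + _
        exact (min_le_left _ _).trans (Nat.le_add_right _ _)
    · rcases y with t' | u'
      · have e1 : ¬ (toLex (Sum.inr u) : Big M e) ≤ toLex (Sum.inl t') :=
          Sum.Lex.not_inr_le_inl
        refine ⟨fun h => ?_, fun h => absurd h e1⟩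
        exfalso
        have ht := t'.isLt
        have hNpos : 0 < N := by
          rcases Nat.eq_zero_or_pos N with h0 | h0
          · have : M = 0 := by rw [hM, h0, mul_zero]
            omega
          · exact h0
        have h1 := h ⟨N - 1, by omega⟩
        have h2 : a ≤ vec e a N M σ (toLex (Sum.inr u)) ⟨N - 1, by omega⟩ :=
          Nat.le_add_right _ _
        have h3 : vec e a N M σ (toLex (Sum.inl t')) ⟨N - 1, by omega⟩ =
            min a (t'.val - a * (N - 1)) := rfl
        have h6 : a ≤ min a (t'.val - a * (N - 1)) := h2.trans (h1.trans h3.le)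
        have h4 := min_le_right a (t'.val - a * (N - 1))
        have ha : 0 < a := by
          rcases Nat.eq_zero_or_pos a with h0 | h0
          · have : M = 0 := by rw [hM, h0, zero_mul]
            omega
          · exact h0
        have h5 : a * (N - 1) + a = M := by
          rw [hM]
          obtain ⟨m, hm⟩ : ∃ m, N = m + 1 := ⟨N - 1, by omega⟩
          rw [hm]; simp only [Nat.add_sub_cancel]; ring
        omega
      · have e1 : (toLex (Sum.inr u) : Big M e) ≤ toLex (Sum.inr u') ↔
            u ≤ u' := Sum.Lex.inr_le_inr_iff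
        refine Iff.trans ?_ e1.symm
        rw [le_iff]
        have e2 : (∀ i, vec e a N M σ (toLex (Sum.inr u)) i ≤
            vec e a N M σ (toLex (Sum.inr u')) i) ↔
            ∀ i, (σ i ∈ code e u → σ i ∈ code e u') := by
          refine forall_congr' fun i => ?_
          show a + (if σ i ∈ code e u then 1 else 0) ≤ a + (if σ i ∈ code e u' then 1 else 0) ↔ _
          by_cases h1 : σ i ∈ code e u <;> by_cases h2 : σ i ∈ code e u' <;> simp [h1, h2]
        rw [e2]
        have hu : (u : P ⊕ (P × Fin 3)) ≠ Sum.inl q := fun h => hx (by rw [h]; rfl)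
        have hu' : (u' : P ⊕ (P × Fin 3)) ≠ Sum.inl q := fun h => hy (by rw [h]; rfl)
        constructor
        · intro h
          have h' : ∀ c : P × Fin 3, c ≠ (q, 2) → c ∈ code e u → c ∈ code e u' := by
            intro c hc
            have h1 := h (τ.symm ⟨c, hc⟩)
            have h2 : σ (τ.symm ⟨c, hc⟩) = c := by
              show (τ (τ.symm ⟨c, hc⟩)).1 = c
              rw [Equiv.apply_symm_apply]
            rwa [h2] at h1
          intro c hc
          by_cases hcq : c = (q, 2)
          · subst hcq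
            rw [third e q u hu] at hc
            rw [third e q u' hu']
            rcases hc with hc | hc
            · exact Or.inl (h' _ (by simp) hc)
            · exact Or.inr (h' _ (by simp) hc)
          · exact h' c hcq hc
        · intro h i hi
          exact h hi
  have hne : ∀ x : S, ofLex x.1 ≠ Sum.inr (pt e q) := by
    intro x h
    apply hS
    rw [← h]
    exact x.2
  exact ⟨OrderEmbedding.ofMapLEIff (fun x : S => g x.1) (fun x y =>
    hg (ofLex x.1) (ofLex y.1) (hne x) (hne y))⟩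

/-- padding with zeros -/
lemma embeds_mono {k : ℕ} (hk : 1 ≤ k) {Q : Type u} [PartialOrder Q] {m n : ℕ} (hmn : m ≤ n)
    (h : Nonempty (Q ↪o (Fin m → Fin k))) : Nonempty (Q ↪o (Fin n → Fin k)) := by
  obtain ⟨f⟩ := h
  refine ⟨OrderEmbedding.ofMapLEIff (fun x i => if hi : i.val < m then f x ⟨i.val, hi⟩ else
    ⟨0, hk⟩) fun x y => ?_⟩
  constructor
  · intro h
    rw [← f.le_iff_le]
    intro i
    have h1 := h ⟨i.val, by omega⟩
    simpa using h1
  · intro h i
    have h1 := f.le_iff_le.mpr h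
    by_cases hi : i.val < m
    · simp only [hi, dif_pos]
      exact h1 _
    · simp only [hi, dif_neg, not_false_eq_true]
      exact le_refl _

/-- every finite poset has finite `k`-dimension -/
lemma exists_embeds {k : ℕ} (hk : 2 ≤ k) (Q : Type u) [PartialOrder Q] [Finite Q] :
    Nonempty (Q ↪o (Fin (Nat.card Q) → Fin k)) := by
  classical
  let e := Finite.equivFin Q
  refine ⟨OrderEmbedding.ofMapLEIff (fun x i => if e.symm i ≤ x then ⟨1, by omega⟩ else
    ⟨0, by omega⟩) fun x y => ?_⟩
  constructor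
  · intro h
    have h1 := h (e x)
    simp only [Equiv.symm_apply_apply, le_refl, if_true] at h1
    by_contra hxy
    rw [if_neg hxy] at h1
    exact absurd h1 (by simp [Fin.le_def])
  · intro h i
    by_cases h1 : e.symm i ≤ x
    · simp only [if_pos h1, if_pos (h1.trans h)]
      exact le_refl _
    · simp only [if_neg h1]
      simp [Fin.le_def]

lemma kdim_le {k : ℕ} {Q : Type u} [PartialOrder Q] {n : ℕ}
    (h : Nonempty (Q ↪o (Fin n → Fin k))) : kdim k Q ≤ n := Nat.sInf_le h

lemma lt_kdim {k : ℕ} (hk : 2 ≤ k) {Q : Type u} [PartialOrder Q] [Finite Q] {n : ℕ}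
    (h : ¬ Nonempty (Q ↪o (Fin n → Fin k))) : n < kdim k Q := by
  by_contra hlt
  rw [not_lt] at hlt
  have h1 : Nonempty (Q ↪o (Fin (kdim k Q) → Fin k)) :=
    Nat.sInf_mem (s := {n | Nonempty (Q ↪o (Fin n → Fin k))}) ⟨_, exists_embeds hk Q⟩
  exact h (embeds_mono (by omega) hlt h1)

lemma exists_rank (P : Type u) [PartialOrder P] [Finite P] :
    ∃ e : P ≃ Fin (Nat.card P), ∀ p q, p < q → e p < e q := by
  let _ : Fintype P := Fintype.ofFinite P
  let _ : Fintype (LinearExtension P) := Fintype.ofFinite P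
  have hc : Fintype.card (LinearExtension P) = Nat.card P := by
    rw [Nat.card_eq_fintype_card]
    exact Fintype.card_congr (Equiv.refl P)
  let o := Fintype.orderIsoFinOfCardEq (LinearExtension P) hc
  let e0 : P ≃ LinearExtension P := Equiv.refl P
  refine ⟨e0.trans o.symm.toEquiv, fun p q h => ?_⟩
  show o.symm (e0 p) < o.symm (e0 q)
  have h0 : toLinearExtension p ≤ toLinearExtension q :=
    (toLinearExtension (α := P)).monotone h.le
  have h1 : e0 p ≠ e0 q := fun h1 => h.ne (e0.injective h1)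
  exact o.symm.strictMono (lt_of_le_of_ne h0 h1)

lemma main (k : ℕ) (hk : 2 ≤ k) (P : Type u) [PartialOrder P] [Finite P] [Nonempty P] :
    ∃ (Q : Type u) (_ : PartialOrder Q) (_ : Finite Q),
      KIrreducible k Q ∧ Nonempty (P ↪o Q) ∧ kdim k P < kdim k Q := by
  obtain ⟨a, rfl⟩ : ∃ a, k = a + 2 := ⟨k - 2, by omega⟩
  obtain ⟨e, he⟩ := exists_rank P
  have hlpos : 0 < Nat.card P := Nat.card_pos
  generalize hl : Nat.card P = l at e he hlpos
  have : Finite (Big (a * (3 * l - 1)) e) :=
    inferInstanceAs (Finite (Fin (a * (3 * l - 1)) ⊕ Blk e))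
  obtain ⟨S, hS, hmin⟩ := (wellFounded_lt (α := Set (Big (a * (3 * l - 1)) e))).has_min
    {S | ¬ Nonempty (S ↪o (Fin (3 * l - 1) → Fin (a + 2)))}
    ⟨Set.univ, by
      rintro ⟨f⟩
      apply not_embeds e he a hlpos
      exact ⟨OrderEmbedding.ofMapLEIff (fun x => f ⟨x, Set.mem_univ x⟩) fun x y => by
        rw [f.le_iff_le]; rfl⟩⟩
  have hpt : ∀ p : P, toLex (Sum.inr (pt e p)) ∈ S := by
    intro p
    by_contra hp
    exact hS (embeds e a _ _ hlpos rfl rfl p S hp)
  have hlt := lt_kdim hk (Q := S) hS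
  refine ⟨S, inferInstance, inferInstance, ?_, ?_, ?_⟩
  · intro x
    refine lt_of_le_of_lt (kdim_le (n := 3 * l - 1) ?_) hlt
    by_contra hno
    have h1 : ¬ Nonempty ((S \ {x.1} : Set _) ↪o (Fin (3 * l - 1) → Fin (a + 2))) := by
      rintro ⟨f⟩
      apply hno
      exact ⟨OrderEmbedding.ofMapLEIff (fun y => f ⟨y.1.1, y.1.2, fun h => y.2 (Subtype.ext h)⟩)
        fun y z => by rw [f.le_iff_le]; rfl⟩
    refine hmin _ h1 ⟨Set.sdiff_subset, fun h => ?_⟩
    exact (h x.2).2 rfl
  · refine ⟨OrderEmbedding.ofMapLEIff (fun p => (⟨toLex (Sum.inr (pt e p)), hpt p⟩ : S)) ?_⟩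
    intro p q
    rw [Subtype.mk_le_mk, Sum.Lex.inr_le_inr_iff, pt_le_pt]
  · refine lt_of_le_of_lt (kdim_le (exists_embeds hk P)) (lt_of_le_of_lt ?_ hlt)
    omega

/-- For every `k ≥ 2` and every finite poset `P` there is a finite `k`-irreducible poset `Q` which
contains a copy of `P` and has larger `k`-dimension. -/
theorem result (k : ℕ) (hk : 2 ≤ k) (P : Type u) [PartialOrder P] [Finite P] :
    ∃ (Q : Type u) (_ : PartialOrder Q) (_ : Finite Q),
      KIrreducible k Q ∧ Nonempty (P ↪o Q) ∧ kdim k P < kdim k Q := by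
  rcases isEmpty_or_nonempty P with hP | hP
  · obtain ⟨Q, iQ, fQ, h1, _, h3⟩ := main k hk PUnit.{u + 1}
    refine ⟨Q, iQ, fQ, h1, ⟨OrderEmbedding.ofMapLEIff (fun p => isEmptyElim p)
      fun p => isEmptyElim p⟩, ?_⟩
    have h4 : kdim k P ≤ 0 := kdim_le ⟨OrderEmbedding.ofMapLEIff (fun p => isEmptyElim p)
      fun p => isEmptyElim p⟩
    omega
  · exact main k hk P

end Pool.Agent.Results.MP_6e33d6_co.Irreducible
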